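import Pool.Agent.H11.Quart

set_option autoImplicit false

namespace Pool.Agent.Results.MP_08b96b_lc.NPHard
open Pool.Agent.H11.PT

/-- every induced subgraph has chromatic number equal to its clique number -/
def Perfect {V : Type} (G : SimpleGraph V) : Prop :=
  ∀ S : Set V, (G.induce S).chromaticNumber = (G.induce S).cliqueNum

/-- some induced cycle `c 0, …, c (k-1)` with `k ≥ 4` vertices passes through `u` and `v` -/
def OnHole {V : Type} (G : SimpleGraph V) (u v : V) : Prop :=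
  ∃ (k : ℕ) (c : ℕ → V), 4 ≤ k ∧ (∀ i < k, ∀ j < k, c i = c j → i = j) ∧
    (∀ i < k, ∀ j < k, G.Adj (c i) (c j) ↔ j = (i + 1) % k ∨ i = (j + 1) % k) ∧
    (∃ i < k, c i = u) ∧ ∃ i < k, c i = v

/-- an instance: number of vertices, edge list, two vertices -/
abbrev Inst := (ℕ × List (ℕ × ℕ)) × ℕ × ℕ

/-- the promise: two distinct vertices of a perfect graph -/
def Promise (y : Inst) : Prop :=
  y.2.1 < y.1.1 ∧ y.2.2 < y.1.1 ∧ y.2.1 ≠ y.2.2 ∧ Perfect (gr y.1.1 y.1.2)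

/-- the question: the two vertices lie on a common hole -/
def Yes (y : Inst) : Prop :=
  ∃ u v : Fin y.1.1, u.val = y.2.1 ∧ v.val = y.2.2 ∧ OnHole (gr y.1.1 y.1.2) u v

theorem perfect {V : Type} [Finite V] {G : SimpleGraph V} (h : G.Colorable 2) : Perfect G := by
  classical
  intro S
  have h2 : (G.induce S).Colorable 2 := h.of_hom (SimpleGraph.Embedding.induce S).toHom
  generalize G.induce S = H at h2
  obtain ⟨s, hs⟩ := H.exists_isNClique_cliqueNum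
  refine le_antisymm (SimpleGraph.chromaticNumber_le_iff_colorable.2 ?_)
    (hs.card_eq ▸ hs.isClique.card_le_chromaticNumber)
  by_cases e : H = ⊥
  · rcases isEmpty_or_nonempty S with h | ⟨⟨a⟩⟩
    · exact (H.colorable_zero_iff.2 h).mono (by omega)
    · have := SimpleGraph.IsClique.card_le_cliqueNum (G := H) (t := {a}) (tc := by simp)
      exact (SimpleGraph.colorable_one_iff.2 e).mono (by simpa using this)
  · obtain ⟨a, b, ab⟩ := SimpleGraph.ne_bot_iff_exists_adj.1 e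
    have := SimpleGraph.IsClique.card_le_cliqueNum (G := H) (t := {a, b})
      (tc := by simpa using fun _ => ab)
    exact h2.mono (by rwa [Finset.card_pair ab.ne] at this)

theorem md {i k : ℕ} (h : i < k) : (i + 1 < k ∧ (i + 1) % k = i + 1) ∨ (i + 1 = k ∧ (i + 1) % k = 0) := by
  rcases Nat.lt_or_ge (i + 1) k with a | a
  · exact Or.inl ⟨a, Nat.mod_eq_of_lt a⟩
  · obtain rfl : i + 1 = k := by omega
    exact Or.inr ⟨rfl, Nat.mod_self _⟩

theorem facts {V : Type} {G : SimpleGraph V} {u v : V} (h : OnHole G u v) : ∃ S : V → Prop, S u ∧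
    (∀ x, S x → ∃ y z, y ≠ z ∧ S y ∧ S z ∧ G.Adj x y ∧ G.Adj x z ∧
      ∀ w, S w → G.Adj x w → w = y ∨ w = z) ∧
    ∀ W : V → Prop, W u → (∀ x y, S x → S y → G.Adj x y → W x → W y) → W v := by
  obtain ⟨k, c, h1, h2, h3, ⟨a, ha, rfl⟩, ⟨b, hb, rfl⟩⟩ := h
  refine ⟨fun x => ∃ i < k, c i = x, ⟨a, ha, rfl⟩, ?_, fun W w hW => ?_⟩
  · rintro _ ⟨i, hi, rfl⟩
    obtain ⟨j, hj, e⟩ : ∃ j < k, i = (j + 1) % k := by
      rcases i with _ | i
      · exact ⟨k - 1, by omega, by rw [Nat.sub_add_cancel (by omega), Nat.mod_self]⟩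
      · exact ⟨i, by omega, (Nat.mod_eq_of_lt hi).symm⟩
    have l := Nat.mod_lt (i + 1) (show 0 < k by omega)
    have m1 := md hi
    have m2 := md hj
    refine ⟨c j, c ((i + 1) % k), fun e' => ?_, ⟨j, hj, rfl⟩, ⟨_, l, rfl⟩,
      (h3 _ hi _ hj).2 (Or.inr e), (h3 _ hi _ l).2 (Or.inl rfl), ?_⟩
    · have := h2 _ hj _ l e'; omega
    · rintro _ ⟨t, ht, rfl⟩ a
      have m3 := md ht
      rcases (h3 _ hi _ ht).1 a with e' | e'
      · exact Or.inr (by rw [e'])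
      · exact Or.inl (by rw [show t = j by omega])
  · have : ∀ t, W (c ((a + t) % k)) := by
      intro t
      induction t with
      | zero => simpa [Nat.mod_eq_of_lt ha] using w
      | succ t ih =>
        have l := Nat.mod_lt (a + t) (show 0 < k by omega)
        have l' := Nat.mod_lt (a + (t + 1)) (show 0 < k by omega)
        exact hW _ _ ⟨_, l, rfl⟩ ⟨_, l', rfl⟩
          ((h3 _ l _ l').2 (Or.inl (by rw [Nat.mod_add_mod, add_assoc]))) ih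
    have := this (b + k - a)
    rwa [show a + (b + k - a) = b + k by omega, Nat.add_mod_right, Nat.mod_eq_of_lt hb] at this

abbrev V := ℕ × ℕ × ℕ
abbrev F := List (Lit × Lit × Lit)
def lit (φ : F) (j r : ℕ) : Lit :=
  if r = 0 then (φ.getD j ((0, true), (0, true), (0, true))).1
  else if r = 1 then (φ.getD j ((0, true), (0, true), (0, true))).2.1
  else (φ.getD j ((0, true), (0, true), (0, true))).2.2
def nv (φ : F) : ℕ := (φ.map fun c => c.1.1 + c.2.1.1 + c.2.2.1).sum + 1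
def lv (φ : F) (d r : ℕ) : ℕ := (lit φ ((d - 4 * nv φ) / 2) r).1
def lb (φ : F) (d r : ℕ) : ℕ := bif (lit φ ((d - 4 * nv φ) / 2) r).2 then 0 else 1
abbrev A (φ : F) (x y : V) : Prop :=
  (x.1 = y.1 ∧ y.2.1 = x.2.1 + 1 ∧ (x.2.1 % 4 ≠ x.1 + 2 ∨ 4 * nv φ ≤ x.2.1 ∨ x.2.2 = y.2.2)) ∨
  (x.1 = 0 ∧ y.1 = 1 ∧ ((x.2.1 = 0 ∧ y.2.1 = 1) ∨
    (x.2.1 = 4 * nv φ + 2 * φ.length ∧ y.2.1 = 4 * nv φ + 1) ∨
    (x.2.1 < 4 * nv φ ∧ 2 ≤ x.2.1 % 4 ∧ y.2.1 = x.2.1 + 1 ∧ x.2.2 ≠ y.2.2))) ∨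
  (x.1 = 0 ∧ 4 * nv φ < x.2.1 ∧ x.2.1 % 2 = 1 ∧ lv φ x.2.1 x.2.2 < nv φ ∧ y.2.2 = lb φ x.2.1 x.2.2 ∧
    ((y.1 = 0 ∧ y.2.1 = 4 * lv φ x.2.1 x.2.2 + 2) ∨ (y.1 = 1 ∧ y.2.1 = 4 * lv φ x.2.1 x.2.2 + 4)))
abbrev Val (φ : F) (x : V) : Prop :=
  (x.1 = 0 ∧ x.2.1 ≤ 4 * nv φ + 2 * φ.length ∧ (x.2.2 = 0 ∨ (x.2.1 < 4 * nv φ ∧ 2 ≤ x.2.1 % 4 ∧ x.2.2 = 1) ∨
    (4 * nv φ < x.2.1 ∧ x.2.1 % 2 = 1 ∧ x.2.2 < 3))) ∨
  (x.1 = 1 ∧ 1 ≤ x.2.1 ∧ x.2.1 ≤ 4 * nv φ + 1 ∧ (x.2.2 = 0 ∨ ((x.2.1 % 4 = 3 ∨ x.2.1 % 4 = 0) ∧ x.2.2 = 1)))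
def vs (φ : F) : List V := (0, 0, 0) :: (0, 4 * nv φ + 2 * φ.length, 0) ::
  (List.range 2 ×ˢ List.range (4 * nv φ + 2 * φ.length + 2) ×ˢ List.range 3).filter fun v =>
    decide (Val φ v ∧ ¬ v = (0, 0, 0) ∧ ¬ v = (0, 4 * nv φ + 2 * φ.length, 0))
abbrev red (φ : F) : Inst := (((vs φ).length, mkE (vs φ) fun v w => decide (A φ v w)), 0, 1)

theorem red_pt : PT red := by
  have h0 : PT nv := by unfold nv; fun_prop
  have h3 : PT vs := by unfold vs Val; fun_prop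
  exact (h3.length.pair (PT.mkE (adj := fun φ v w => decide (A φ v w)) h3
    (by unfold A lv lb lit; fun_prop))).pair (PT.const _)

variable (φ : F)

theorem nv1 : 1 ≤ nv φ := by simp [nv]

theorem mem_vs (v : V) : v ∈ vs φ ↔ Val φ v := by
  obtain ⟨a, b, c⟩ := v
  simp only [vs, List.mem_cons, List.mem_filter, List.mem_product, List.mem_range, decide_eq_true_eq,
    Val, Prod.mk.injEq]
  omega

theorem lv_lt {j : ℕ} (h : j < φ.length) (r : ℕ) : (lit φ j r).1 < nv φ := by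
  have := List.single_le_sum (l := φ.map fun c => c.1.1 + c.2.1.1 + c.2.2.1) (by simp) _
    (List.mem_map_of_mem (List.getElem_mem h))
  simp only [lit, List.getD_eq_getElem _ _ h, nv]
  split_ifs <;> omega

theorem par {x y : V} (h : A φ x y) : x.2.1 % 2 ≠ y.2.1 % 2 := by
  unfold A at h; omega

theorem graph : ∃ (p : Fin (vs φ).length → V) (u v : Fin (vs φ).length), Function.Injective p ∧
    (∀ v, Val φ v ↔ ∃ i, p i = v) ∧ u.val = 0 ∧ v.val = 1 ∧ p u = (0, 0, 0) ∧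
    p v = (0, 4 * nv φ + 2 * φ.length, 0) ∧
      ∀ i j, (gr (red φ).1.1 (red φ).1.2).Adj i j ↔ A φ (p i) (p j) ∨ A φ (p j) (p i) := by
  have := nv1 φ
  have nd : (vs φ).Nodup := List.nodup_cons.2 ⟨by simp; omega, List.nodup_cons.2 ⟨by simp,
    (List.nodup_range.product (List.nodup_range.product List.nodup_range)).filter _⟩⟩
  have hi : Function.Injective (vs φ).get := List.nodup_iff_injective_get.1 nd
  refine ⟨(vs φ).get, ⟨0, by simp [vs]⟩, ⟨1, by simp [vs]⟩, hi,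
    fun v => (mem_vs φ v).symm.trans List.mem_iff_get, rfl, rfl, rfl, rfl, fun i j => ?_⟩
  simp only [gr, SimpleGraph.fromRel_adj, mem_mkE, Fin.is_lt, exists_true_left, decide_eq_true_eq,
    List.get_eq_getElem, and_iff_right_iff_imp]
  rintro (a | a) rfl <;> exact par φ a rfl

theorem bip : (gr (red φ).1.1 (red φ).1.2).Colorable 2 := by
  obtain ⟨p, -, -, -, -, -, -, -, -, h3⟩ := graph φ
  refine ⟨SimpleGraph.Coloring.mk (fun i => ⟨(p i).2.1 % 2, by omega⟩) fun {i j} a => ?_⟩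
  rcases (h3 i j).1 a with a | a <;> have := par φ a <;> simp only [ne_eq, Fin.mk.injEq] <;> omega

def B (x y : V) : Prop := A φ x y ∨ A φ y x

theorem core (m1 : 1 ≤ φ.length) (S : V → Prop) (hv : ∀ x, S x → Val φ x) (h0 : S (0, 0, 0))
    (h1 : ∀ x, S x → ∃ y z, y ≠ z ∧ S y ∧ S z ∧ B φ x y ∧ B φ x z ∧ ∀ w, S w → B φ x w → w = y ∨ w = z)
    (h2 : ∀ W : V → Prop, W (0, 0, 0) → (∀ x y, S x → S y → B φ x y → W x → W y) →
      W (0, 4 * nv φ + 2 * φ.length, 0)) : SAT3 φ := by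
  classical
  have n1 := nv1 φ
  have sat : ∀ x y z, S x → S y → S z → B φ x y → B φ x z → y ≠ z →
      ∀ w, S w → B φ x w → w = y ∨ w = z := by
    intro x y z a b c d e f w g h
    obtain ⟨y', z', -, -, -, -, -, k⟩ := h1 x a
    rcases k y b d with rfl | rfl <;> rcases k z c e with rfl | rfl <;> rcases k w g h with rfl | rfl <;>
      simp at f ⊢
  have nxt : ∀ x y, S x → ∃ s d b, (s, d, b) ≠ y ∧ S (s, d, b) ∧ B φ x (s, d, b) ∧ Val φ (s, d, b) := by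
    intro x y a
    obtain ⟨y', z', n, b, c, d, e, -⟩ := h1 x a
    by_cases h : y' = y
    · exact ⟨_, _, _, h ▸ n.symm, c, e, hv _ c⟩
    · exact ⟨_, _, _, h, b, d, hv _ b⟩
  have ad : ∀ s d b c, (d % 4 ≠ s + 2 ∨ 4 * nv φ ≤ d ∨ b = c) →
      B φ (s, d, b) (s, d + 1, c) ∧ B φ (s, d + 1, c) (s, d, b) :=
    fun s d b c h => ⟨Or.inl (Or.inl ⟨rfl, rfl, h⟩), Or.inr (Or.inl ⟨rfl, rfl, h⟩)⟩
  let Q : ℕ → Prop := fun i => ∀ b, S (0, 4 * i + 2, b) ∨ S (1, 4 * i + 4, b) → ∀ d r, S (0, d, r) →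
    4 * nv φ < d → d % 2 = 1 → lv φ d r = i → lb φ d r ≠ b
  have step : ∀ i < nv φ, (∀ i' < i, Q i') → S (0, 4 * i, 0) → S (0, 4 * i + 1, 0) →
      S (1, 4 * i + 1, 0) → S (1, 4 * i + 2, 0) → Q i ∧ S (0, 4 * i + 4, 0) ∧
        S (1, 4 * i + 5, 0) ∧ ∃ b, S (0, 4 * i + 2, b) ∧ (∀ b', S (0, 4 * i + 3, b') → b' = b) ∧
          S (0, 4 * i + 3, b) ∧ ∀ b', S (1, 4 * i + 4, b') → b' = b := by
    intro i hi hQ s1 s2 s3 s4
    have cl : ∀ L : List V, (0, 4 * i + 1, 0) ∈ L → (1, 4 * i + 2, 0) ∈ L →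
        (0, 4 * nv φ + 2 * φ.length, 0) ∉ L → (∀ x ∈ L, ∃ y ∈ (0, 4 * i, 0) :: (1, 4 * i + 1, 0) :: L,
          ∃ z ∈ L, ∀ w, S w → B φ x w → w = y ∨ w = z) → False := by
      intro L a1 a2 a3 a4
      have := h2 (fun x => (x.2.1 ≤ 4 * i ∨ x = (1, 4 * i + 1, 0)) ∨ x ∈ L) (by simp) ?_
      · simp [a3] at this; omega
      rintro ⟨s, d, b⟩ ⟨s', d', b'⟩ e1 e2 e3 (e4 | e4)
      · have v1 := hv _ e1
        have v2 := hv _ e2
        by_cases c : 4 * nv φ < d' ∧ d' % 2 = 1 ∧ s' = 0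
        · obtain ⟨c1, c2, rfl⟩ := c
          simp only [B, A, Val, Prod.mk.injEq] at e3 e4 v1 v2
          obtain ⟨k1, k2, ⟨rfl, rfl⟩ | ⟨rfl, rfl⟩⟩ : lv φ d' b' < i ∧ b = lb φ d' b' ∧
            ((s = 0 ∧ d = 4 * lv φ d' b' + 2) ∨ (s = 1 ∧ d = 4 * lv φ d' b' + 4)) := by omega
          · exact absurd k2.symm (hQ _ k1 _ (Or.inl e1) _ _ e2 c1 c2 rfl)
          · exact absurd k2.symm (hQ _ k1 _ (Or.inr e1) _ _ e2 c1 c2 rfl)
        · simp only [B, A, Val, Prod.mk.injEq] at e3 e4 v1 v2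
          obtain k | ⟨rfl, rfl, rfl⟩ | ⟨rfl, rfl, rfl⟩ : (d' ≤ 4 * i ∨ s' = 1 ∧ d' = 4 * i + 1 ∧ b' = 0) ∨
            (s' = 0 ∧ d' = 4 * i + 1 ∧ b' = 0) ∨ (s' = 1 ∧ d' = 4 * i + 2 ∧ b' = 0) := by omega
          · exact Or.inl (by simpa using k)
          · exact Or.inr a1
          · exact Or.inr a2
      · obtain ⟨y, hy, z, hz, k⟩ := a4 _ e4
        rcases k _ e2 e3 with rfl | rfl
        · rcases List.mem_cons.1 hy with k | k
          · rw [k]; simp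
          · exact (List.mem_cons.1 k).imp Or.inr id
        · exact Or.inr hz
    obtain ⟨s, d, b, k1, t1, k2, k3⟩ := nxt _ (0, 4 * i, 0) s2
    simp only [B, A, Val, ne_eq, Prod.mk.injEq] at k1 k2 k3
    obtain ⟨rfl, rfl, hb⟩ : s = 0 ∧ d = 4 * i + 2 ∧ b < 2 := by omega
    clear k1 k2 k3
    obtain ⟨s, d, b', k1, t2, k2, k3⟩ := nxt _ (1, 4 * i + 1, 0) s4
    simp only [B, A, Val, ne_eq, Prod.mk.injEq] at k1 k2 k3
    obtain ⟨rfl, rfl, hb'⟩ : s = 1 ∧ d = 4 * i + 3 ∧ b' < 2 := by omega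
    clear k1 k2 k3
    have u1 := sat _ _ _ s2 s1 t1 (ad _ _ _ _ (by omega)).2 (ad _ _ _ _ (by omega)).1 (by simp)
    have u2 := sat _ _ _ s4 s3 t2 (ad _ _ _ _ (by omega)).2 (ad _ _ _ _ (by omega)).1 (by simp)
    obtain rfl : b = b' := by
      by_contra n
      have ab : A φ (0, 4 * i + 2, b) (1, 4 * i + 3, b') := by simp [A, n]; omega
      have u3 := sat _ _ _ t1 s2 t2 (ad _ _ _ _ (by omega)).2 (Or.inl ab) (by simp)
      have u4 := sat _ _ _ t2 s4 t1 (ad _ _ _ _ (by omega)).2 (Or.inr ab) (by simp)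
      refine cl [(0, 4 * i + 1, 0), (1, 4 * i + 2, 0), (0, 4 * i + 2, b), (1, 4 * i + 3, b')]
        (by simp) (by simp) (by simp; omega) ?_
      simp only [List.forall_mem_cons]
      exact ⟨⟨_, by simp, _, by simp, u1⟩, ⟨_, by simp, _, by simp, u2⟩, ⟨_, by simp, _, by simp, u3⟩,
        ⟨_, by simp, _, by simp, u4⟩, by simp⟩
    have w1 : ∀ c, S (0, 4 * i + 2, c) → c = b := fun c h => by
      simpa using u1 _ h (ad _ _ _ _ (by omega)).1
    have w2 : ∀ c, S (1, 4 * i + 3, c) → c = b := fun c h => by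
      simpa using u2 _ h (ad _ _ _ _ (by omega)).1
    obtain ⟨s, d, c, k1, t3, k2, k3⟩ := nxt _ (1, 4 * i + 2, 0) t2
    simp only [B, A, Val, ne_eq, Prod.mk.injEq] at k1 k2 k3
    obtain ⟨rfl, rfl, rfl⟩ : s = 1 ∧ d = 4 * i + 4 ∧ b = c := by
      obtain k | ⟨rfl, rfl, k⟩ : (s = 1 ∧ d = 4 * i + 4 ∧ b = c) ∨ (s = 0 ∧ d = 4 * i + 2 ∧ c ≠ b) := by
        omega
      · exact k
      · exact absurd (w1 _ t3) k
    clear k1 k2 k3
    have u3 := sat _ _ _ t2 s4 t3 (ad _ _ _ _ (by omega)).2 (ad _ _ _ _ (by omega)).1 (by simp)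
    have q1 : ∀ d r, S (0, d, r) → 4 * nv φ < d → d % 2 = 1 → lv φ d r = i → lb φ d r ≠ b := by
      intro d r t4 c1 c2 c3 c4
      have a1 : A φ (0, d, r) (0, 4 * i + 2, b) := by simp [A]; omega
      have a2 : A φ (0, d, r) (1, 4 * i + 4, b) := by simp [A]; omega
      have u4 := sat _ _ _ t1 s2 t4 (ad _ _ _ _ (by omega)).2 (Or.inr a1) (by simp; omega)
      have u5 := sat _ _ _ t3 t2 t4 (ad _ _ _ _ (by omega)).2 (Or.inr a2) (by simp)
      have u6 := sat _ _ _ t4 t1 t3 (Or.inl a1) (Or.inl a2) (by simp)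
      refine cl [(0, 4 * i + 1, 0), (1, 4 * i + 2, 0), (0, 4 * i + 2, b), (1, 4 * i + 3, b),
        (1, 4 * i + 4, b), (0, d, r)] (by simp) (by simp) (by simp; omega) ?_
      simp only [List.forall_mem_cons]
      exact ⟨⟨_, by simp, _, by simp, u1⟩, ⟨_, by simp, _, by simp, u2⟩, ⟨_, by simp, _, by simp, u4⟩,
        ⟨_, by simp, _, by simp, u3⟩, ⟨_, by simp, _, by simp, u5⟩, ⟨_, by simp, _, by simp, u6⟩, by simp⟩
    obtain ⟨s, d, c, k1, t4, k2, k3⟩ := nxt _ (0, 4 * i + 1, 0) t1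
    simp only [B, A, Val, ne_eq, Prod.mk.injEq] at k1 k2 k3
    obtain ⟨rfl, rfl, rfl⟩ : s = 0 ∧ d = 4 * i + 3 ∧ b = c := by
      obtain k | ⟨rfl, rfl, k⟩ | ⟨rfl, k⟩ : (s = 0 ∧ d = 4 * i + 3 ∧ b = c) ∨
        (s = 1 ∧ d = 4 * i + 3 ∧ c ≠ b) ∨
        (s = 0 ∧ 4 * nv φ < d ∧ d % 2 = 1 ∧ lv φ d c = i ∧ lb φ d c = b) := by omega
      · exact k
      · exact absurd (w2 _ t4) k
      · exact absurd k.2.2.2 (q1 _ _ t4 k.1 k.2.1 k.2.2.1)
    clear k1 k2 k3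
    have u4 := sat _ _ _ t1 s2 t4 (ad _ _ _ _ (by omega)).2 (ad _ _ _ _ (by omega)).1 (by simp)
    have w3 : ∀ c, S (0, 4 * i + 3, c) → c = b := by
      intro c h
      by_contra n
      have a1 : A φ (0, 4 * i + 3, c) (1, 4 * i + 4, b) := by simp [A, n]; omega
      obtain ⟨s, d, c', k1, t5, k2, k3⟩ := nxt _ (1, 4 * i + 4, b) h
      have k4 := hv _ h
      simp only [B, A, Val, ne_eq, Prod.mk.injEq] at k1 k2 k3 k4
      obtain ⟨rfl, rfl, rfl⟩ | ⟨rfl, rfl, rfl⟩ : (s = 0 ∧ d = 4 * i + 4 ∧ c' = 0) ∨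
        (s = 0 ∧ d = 4 * i + 2 ∧ c = c') := by omega
      · clear k1 k2 k3 k4
        have u5 := sat _ _ _ t3 t2 h (ad _ _ _ _ (by omega)).2 (Or.inr a1) (by simp)
        have u6 := sat _ _ _ h t3 t5 (Or.inl a1) (ad _ _ _ _ (by omega)).1 (by simp)
        have u7 := sat _ _ _ t4 t1 t5 (ad _ _ _ _ (by omega)).2 (ad _ _ _ _ (by omega)).1 (by simp)
        have u8 := sat _ _ _ t5 h t4 (ad _ _ _ _ (by omega)).2 (ad _ _ _ _ (by omega)).2 (by simp [n])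
        refine cl [(0, 4 * i + 1, 0), (1, 4 * i + 2, 0), (0, 4 * i + 2, b), (1, 4 * i + 3, b),
          (1, 4 * i + 4, b), (0, 4 * i + 3, c), (0, 4 * i + 3, b), (0, 4 * i + 4, 0)]
          (by simp) (by simp) (by simp; omega) ?_
        simp only [List.forall_mem_cons]
        exact ⟨⟨_, by simp, _, by simp, u1⟩, ⟨_, by simp, _, by simp, u2⟩, ⟨_, by simp, _, by simp, u4⟩,
          ⟨_, by simp, _, by simp, u3⟩, ⟨_, by simp, _, by simp, u5⟩, ⟨_, by simp, _, by simp, u6⟩,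
          ⟨_, by simp, _, by simp, u7⟩, ⟨_, by simp, _, by simp, u8⟩, by simp⟩
      · exact n (w1 _ t5)
    obtain ⟨s, d, c, k1, t6, k2, k3⟩ := nxt _ (1, 4 * i + 3, b) t3
    simp only [B, A, Val, ne_eq, Prod.mk.injEq] at k1 k2 k3
    obtain ⟨rfl, rfl, rfl⟩ : s = 1 ∧ d = 4 * i + 5 ∧ c = 0 := by
      obtain k | ⟨rfl, rfl, k⟩ | ⟨rfl, k⟩ : (s = 1 ∧ d = 4 * i + 5 ∧ c = 0) ∨
        (s = 0 ∧ d = 4 * i + 3 ∧ c ≠ b) ∨
        (s = 0 ∧ 4 * nv φ < d ∧ d % 2 = 1 ∧ lv φ d c = i ∧ lb φ d c = b) := by omega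
      · exact k
      · exact absurd (w3 _ t6) k
      · exact absurd k.2.2.2 (q1 _ _ t6 k.1 k.2.1 k.2.2.1)
    clear k1 k2 k3
    have w4 : ∀ c, S (1, 4 * i + 4, c) → c = b := by
      intro c h
      by_contra n
      have a1 : A φ (0, 4 * i + 3, b) (1, 4 * i + 4, c) := by simp [A, Ne.symm n]; omega
      have u5 := sat _ _ _ t3 t2 t6 (ad _ _ _ _ (by omega)).2 (ad _ _ _ _ (by omega)).1 (by simp)
      have u6 := sat _ _ _ h t4 t6 (Or.inr a1) (ad _ _ _ _ (by omega)).1 (by simp)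
      have u7 := sat _ _ _ t4 t1 h (ad _ _ _ _ (by omega)).2 (Or.inl a1) (by simp)
      have u8 := sat _ _ _ t6 h t3 (ad _ _ _ _ (by omega)).2 (ad _ _ _ _ (by omega)).2 (by simp [n])
      refine cl [(0, 4 * i + 1, 0), (1, 4 * i + 2, 0), (0, 4 * i + 2, b), (1, 4 * i + 3, b),
        (1, 4 * i + 4, b), (1, 4 * i + 4, c), (0, 4 * i + 3, b), (1, 4 * i + 5, 0)]
        (by simp) (by simp) (by simp; omega) ?_
      simp only [List.forall_mem_cons]
      exact ⟨⟨_, by simp, _, by simp, u1⟩, ⟨_, by simp, _, by simp, u2⟩, ⟨_, by simp, _, by simp, u4⟩,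
        ⟨_, by simp, _, by simp, u3⟩, ⟨_, by simp, _, by simp, u5⟩, ⟨_, by simp, _, by simp, u6⟩,
        ⟨_, by simp, _, by simp, u7⟩, ⟨_, by simp, _, by simp, u8⟩, by simp⟩
    obtain ⟨s, d, c, k1, t5, k2, k3⟩ := nxt _ (0, 4 * i + 2, b) t4
    simp only [B, A, Val, ne_eq, Prod.mk.injEq] at k1 k2 k3
    obtain ⟨rfl, rfl, rfl⟩ : s = 0 ∧ d = 4 * i + 4 ∧ c = 0 := by
      obtain k | ⟨rfl, rfl, k⟩ : (s = 0 ∧ d = 4 * i + 4 ∧ c = 0) ∨ (s = 1 ∧ d = 4 * i + 4 ∧ c ≠ b) := by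
        omega
      · exact k
      · exact absurd (w4 _ t5) k
    exact ⟨fun c h => by rcases h with h | h; exacts [w1 c h ▸ q1, w4 c h ▸ q1], t5, t6, b, t1, w3, t4, w4⟩
  have ind : ∀ i < nv φ, (∀ i' < i, Q i') ∧ S (0, 4 * i, 0) ∧ S (0, 4 * i + 1, 0) ∧
      S (1, 4 * i + 1, 0) ∧ S (1, 4 * i + 2, 0) := by
    intro i hi
    induction i with
    | zero =>
      obtain ⟨s, d, c, k1, t1, k2, k3⟩ := nxt _ (0, 1, 0) h0
      simp only [B, A, Val, ne_eq, Prod.mk.injEq] at k1 k2 k3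
      obtain ⟨rfl, rfl, rfl⟩ : s = 1 ∧ d = 1 ∧ c = 0 := by omega
      clear k1 k2 k3
      obtain ⟨s, d, c, k1, t2, k2, k3⟩ := nxt _ (1, 1, 0) h0
      simp only [B, A, Val, ne_eq, Prod.mk.injEq] at k1 k2 k3
      obtain ⟨rfl, rfl, rfl⟩ : s = 0 ∧ d = 1 ∧ c = 0 := by omega
      clear k1 k2 k3
      obtain ⟨s, d, c, k1, t3, k2, k3⟩ := nxt _ (0, 0, 0) t1
      simp only [B, A, Val, ne_eq, Prod.mk.injEq] at k1 k2 k3
      obtain ⟨rfl, rfl, rfl⟩ : s = 1 ∧ d = 2 ∧ c = 0 := by omega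
      exact ⟨by simp, h0, t2, t1, t3⟩
    | succ i ih =>
      obtain ⟨a1, a2, a3, a4, a5⟩ := ih (by omega)
      obtain ⟨b1, b2, b3, b, -, b4, -, b5⟩ := step i (by omega) a1 a2 a3 a4 a5
      obtain ⟨s, d, c, k1, t1, k2, k3⟩ := nxt _ (0, 4 * i + 3, b) b2
      simp only [B, A, Val, ne_eq, Prod.mk.injEq] at k1 k2 k3
      obtain ⟨rfl, rfl, rfl⟩ : s = 0 ∧ d = 4 * i + 5 ∧ c = 0 := by
        obtain k | ⟨rfl, rfl, k⟩ : (s = 0 ∧ d = 4 * i + 5 ∧ c = 0) ∨ (s = 0 ∧ d = 4 * i + 3 ∧ c ≠ b) := by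
          omega
        · exact k
        · exact absurd (b4 _ t1) k
      clear k1 k2 k3
      obtain ⟨s, d, c, k1, t2, k2, k3⟩ := nxt _ (1, 4 * i + 4, b) b3
      simp only [B, A, Val, ne_eq, Prod.mk.injEq] at k1 k2 k3
      obtain ⟨rfl, rfl, rfl⟩ : s = 1 ∧ d = 4 * i + 6 ∧ c = 0 := by
        obtain k | ⟨rfl, rfl, k⟩ : (s = 1 ∧ d = 4 * i + 6 ∧ c = 0) ∨ (s = 1 ∧ d = 4 * i + 4 ∧ c ≠ b) := by
          omega
        · exact k
        · exact absurd (b5 _ t2) k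
      exact ⟨fun i' h => (Nat.lt_succ_iff_lt_or_eq.1 h).elim (a1 i') fun e => e ▸ b1, b2, t1, b3, t2⟩
  have all : ∀ i < nv φ, _ := fun i hi =>
    step i hi (ind i hi).1 (ind i hi).2.1 (ind i hi).2.2.1 (ind i hi).2.2.2.1 (ind i hi).2.2.2.2
  have cls : ∀ j ≤ φ.length, S (0, 4 * nv φ + 2 * j, 0) ∧ ∃ b, S (0, 4 * nv φ + 2 * j - 1, b) ∧
      ∀ c, S (0, 4 * nv φ + 2 * j - 1, c) → c = b := by
    intro j hj
    induction j with
    | zero =>
      obtain ⟨-, b2, -, b, -, b4, b5, -⟩ := all (nv φ - 1) (by omega)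
      rw [show 4 * (nv φ - 1) + 4 = 4 * nv φ + 2 * 0 by omega] at b2
      rw [show 4 * (nv φ - 1) + 3 = 4 * nv φ + 2 * 0 - 1 by omega] at b4 b5
      exact ⟨b2, b, b5, b4⟩
    | succ j ih =>
      obtain ⟨a1, b, a2, a3⟩ := ih (by omega)
      obtain ⟨s, d, c, k1, t1, k2, k3⟩ := nxt _ (0, 4 * nv φ + 2 * j - 1, b) a1
      simp only [B, A, Val, ne_eq, Prod.mk.injEq] at k1 k2 k3
      obtain ⟨rfl, rfl⟩ : s = 0 ∧ d = 4 * nv φ + 2 * j + 1 := by
        obtain k | ⟨rfl, rfl, k⟩ : (s = 0 ∧ d = 4 * nv φ + 2 * j + 1) ∨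
          (s = 0 ∧ d = 4 * nv φ + 2 * j - 1 ∧ c ≠ b) := by omega
        · exact k
        · exact absurd (a3 _ t1) k
      clear k1 k2 k3
      have u := sat _ _ _ a1 a2 t1 (Or.inr (Or.inl ⟨rfl, by dsimp only; omega, by dsimp only; omega⟩))
        (ad _ _ _ _ (by omega)).1 (by simp)
      obtain ⟨s, d, e, k1, t2, k2, k3⟩ := nxt _ (0, 4 * nv φ + 2 * j, 0) t1
      simp only [B, A, Val, ne_eq, Prod.mk.injEq] at k1 k2 k3
      obtain ⟨rfl, rfl, rfl⟩ | ⟨k4, rfl, k⟩ : (s = 0 ∧ d = 4 * nv φ + 2 * (j + 1) ∧ e = 0) ∨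
        (lv φ (4 * nv φ + 2 * j + 1) c < nv φ ∧ e = lb φ (4 * nv φ + 2 * j + 1) c ∧
          ((s = 0 ∧ d = 4 * lv φ (4 * nv φ + 2 * j + 1) c + 2) ∨
          (s = 1 ∧ d = 4 * lv φ (4 * nv φ + 2 * j + 1) c + 4))) := by omega
      · refine ⟨t2, c, t1, fun c' h => ?_⟩
        have := u _ h (ad _ _ _ _ (by omega)).1
        simp only [Prod.mk.injEq] at this
        omega
      · refine absurd rfl ((all _ k4).1 _ ?_ _ _ t1 (by omega) (by omega) rfl)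
        rcases k with ⟨rfl, rfl⟩ | ⟨rfl, rfl⟩
        exacts [Or.inl t2, Or.inr t2]
  refine ⟨fun x => decide (S (0, 4 * x + 2, 1)), fun c hc => ?_⟩
  obtain ⟨j, hj, rfl⟩ := List.getElem_of_mem hc
  obtain ⟨-, r, a, -⟩ := cls (j + 1) hj
  have e : (4 * nv φ + 2 * (j + 1) - 1 - 4 * nv φ) / 2 = j := by omega
  obtain ⟨q, -, -, b, t, -⟩ := all _ (lv_lt φ hj r)
  have q1 := fun b h => q b (Or.inl h) _ _ a (by omega) (by omega) (by rw [lv, e])
  have v := hv _ t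
  have v' := hv _ a
  have k : decide (S (0, 4 * (lit φ j r).1 + 2, 1)) = (lit φ j r).2 := by
    simp only [lb, e] at q1
    cases h : (lit φ j r).2
    · simpa [h] using q1 1
    · obtain rfl : b = 1 := by
        have := q1 b t
        simp only [h, Val, cond_true] at this v; omega
      simpa using t
  obtain rfl | rfl | rfl : r = 0 ∨ r = 1 ∨ r = 2 := by simp only [Val] at v'; omega
  all_goals simp [lit, List.getD_eq_getElem _ _ hj, hj] at k; simp [k]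

theorem sound (h : Yes (red φ)) : SAT3 φ := by
  by_cases m : φ = []
  · exact ⟨fun _ => true, by simp [m]⟩
  obtain ⟨p, u, v, h1, h2, h3, h4, h5, h6, h7⟩ := graph φ
  obtain ⟨u', v', e1, e2, h⟩ := h
  obtain rfl : u = u' := Fin.ext (h3.trans e1.symm)
  obtain rfl : v = v' := Fin.ext (h4.trans e2.symm)
  obtain ⟨S, a, b, c⟩ := facts h
  refine core φ (List.length_pos_iff.2 m) (fun x => ∃ i, p i = x ∧ S i)
    (fun x ⟨i, e, _⟩ => (h2 x).2 ⟨i, e⟩) ⟨u, h5, a⟩ ?_ fun W w hW => h6 ▸ c (fun i => W (p i)) (h5 ▸ w)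
      fun x y s t e => hW _ _ ⟨_, rfl, s⟩ ⟨_, rfl, t⟩ ((h7 _ _).1 e)
  rintro _ ⟨i, rfl, s⟩
  obtain ⟨y, z, b1, b2, b3, b4, b5, b6⟩ := b i s
  refine ⟨p y, p z, h1.ne b1, ⟨_, rfl, b2⟩, ⟨_, rfl, b3⟩, (h7 _ _).1 b4, (h7 _ _).1 b5, ?_⟩
  rintro _ ⟨w, rfl, t⟩ e
  exact (b6 w t ((h7 _ _).2 e)).imp (congrArg p) (congrArg p)

theorem complete (h : SAT3 φ) : Yes (red φ) := by
  obtain ⟨p, u, v, h1, h2, h3, h4, h5, h6, h7⟩ := graph φ
  obtain ⟨σ, hσ⟩ := h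
  have n1 := nv1 φ
  have : ∀ j, ∃ t < 3, j < φ.length → σ (lit φ j t).1 = (lit φ j t).2 := by
    intro j
    by_cases hj : j < φ.length
    · rcases hσ _ (List.getElem_mem hj) with h | h | h
      · exact ⟨0, by omega, fun _ => by simpa [lit, List.getD_eq_getElem _ _ hj, hj] using h⟩
      · exact ⟨1, by omega, fun _ => by simpa [lit, List.getD_eq_getElem _ _ hj, hj] using h⟩
      · exact ⟨2, by omega, fun _ => by simpa [lit, List.getD_eq_getElem _ _ hj, hj] using h⟩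
    · exact ⟨0, by omega, fun h => absurd h hj⟩
  choose t t1 t2 using this
  obtain ⟨ch, c1, c2, c3, c4, c5⟩ : ∃ ch : ℕ → ℕ → ℕ,
      (∀ d ≤ 4 * nv φ + 2 * φ.length, Val φ (0, d, ch 0 d)) ∧
      (∀ d ≤ 4 * nv φ + 1, 1 ≤ d → Val φ (1, d, ch 1 d)) ∧
      (∀ d < 4 * nv φ, 2 ≤ d % 4 → ch 0 d = (σ (d / 4)).toNat) ∧
      (∀ d, d % 4 = 3 ∨ d % 4 = 0 → ch 1 d = (σ ((d - 1) / 4)).toNat) ∧
      ∀ d ≤ 4 * nv φ + 2 * φ.length, 4 * nv φ < d → d % 2 = 1 →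
        lb φ d (ch 0 d) ≠ (σ (lv φ d (ch 0 d))).toNat := by
    refine ⟨fun s d => if s = 0 then (if d < 4 * nv φ then (if 2 ≤ d % 4 then (σ (d / 4)).toNat else 0)
      else if d % 2 = 1 then t ((d - 4 * nv φ) / 2) else 0)
      else if d % 4 = 3 ∨ d % 4 = 0 then (σ ((d - 1) / 4)).toNat else 0, fun d hd => ?_,
      fun d hd h => ?_, fun d a b => by simp [a, b], fun d a => by simp [a], fun d a b c => ?_⟩
    · have := Bool.toNat_lt (σ (d / 4))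
      have := t1 ((d - 4 * nv φ) / 2)
      refine Or.inl ⟨rfl, hd, ?_⟩
      simp only [if_true]; split_ifs <;> first | omega | exact Or.inl rfl | exact Or.inl trivial
    · have := Bool.toNat_lt (σ ((d - 1) / 4))
      refine Or.inr ⟨rfl, h, hd, ?_⟩
      simp only [one_ne_zero, if_false]; split_ifs <;> first | omega | exact Or.inl rfl | exact Or.inl trivial
    · simp only [if_true, if_neg b.not_gt, c, lb, lv, t2 ((d - 4 * nv φ) / 2) (by omega)]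
      cases (lit φ ((d - 4 * nv φ) / 2) (t ((d - 4 * nv φ) / 2))).2 <;> simp
  have k : ∀ s d s' d', (s = 0 ∧ d ≤ 4 * nv φ + 2 * φ.length) ∨ (s = 1 ∧ 1 ≤ d ∧ d ≤ 4 * nv φ + 1) →
      (s' = 0 ∧ d' ≤ 4 * nv φ + 2 * φ.length) ∨ (s' = 1 ∧ 1 ≤ d' ∧ d' ≤ 4 * nv φ + 1) →
      (A φ (s, d, ch s d) (s', d', ch s' d') ↔ (s = s' ∧ d' = d + 1) ∨ (s = 0 ∧ s' = 1 ∧
        ((d = 0 ∧ d' = 1) ∨ (d = 4 * nv φ + 2 * φ.length ∧ d' = 4 * nv φ + 1)))) := by
    intro s d s' d' a b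
    simp only [A]
    constructor
    · rintro (e | ⟨rfl, rfl, e | e | ⟨e1, e2, rfl, e⟩⟩ | ⟨rfl, e1, e2, e3, e4, ⟨rfl, rfl⟩ | ⟨rfl, rfl⟩⟩)
      · omega
      · omega
      · omega
      · rw [c3 d e1 e2, c4 _ (by omega)] at e; simp at e
      · rw [c3 _ (by omega) (by omega), show (4 * lv φ d (ch 0 d) + 2) / 4 = lv φ d (ch 0 d) by omega] at e4
        exact absurd e4.symm (c5 d (by omega) e1 e2)
      · rw [c4 _ (by omega), show (4 * lv φ d (ch 0 d) + 4 - 1) / 4 = lv φ d (ch 0 d) by omega] at e4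
        exact absurd e4.symm (c5 d (by omega) e1 e2)
    · rintro (⟨rfl, rfl⟩ | e)
      · refine Or.inl ⟨rfl, rfl, ?_⟩
        by_contra n
        obtain ⟨rfl, e1, e2⟩ | ⟨rfl, e1⟩ : (s = 0 ∧ d % 4 = 2 ∧ d < 4 * nv φ) ∨ (s = 1 ∧ d % 4 = 3) := by
          omega
        · rw [c3 d e2 (by omega), c3 (d + 1) (by omega) (by omega),
            show (d + 1) / 4 = d / 4 by omega] at n; simp at n
        · rw [c4 d (by omega), c4 (d + 1) (by omega), show (d + 1 - 1) / 4 = (d - 1) / 4 by omega] at n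
          simp at n
      · omega
  have : ∀ i, ∃ x, ∃ s d, p x = (s, d, ch s d) ∧ (i < 8 * nv φ + 2 * φ.length + 2 →
      (s = 0 ∧ d ≤ 4 * nv φ + 2 * φ.length ∧ d = i) ∨ (s = 1 ∧ 1 ≤ d ∧ d ≤ 4 * nv φ + 1 ∧
        d + i = 8 * nv φ + 2 * φ.length + 2)) := by
    intro i
    by_cases a : i ≤ 4 * nv φ + 2 * φ.length
    · obtain ⟨x, e⟩ := (h2 _).1 (c1 i a)
      exact ⟨x, 0, i, e, fun _ => by omega⟩
    by_cases b : i < 8 * nv φ + 2 * φ.length + 2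
    · obtain ⟨x, e⟩ := (h2 _).1 (c2 (8 * nv φ + 2 * φ.length + 2 - i) (by omega) (by omega))
      exact ⟨x, 1, _, e, fun _ => by omega⟩
    · obtain ⟨x, e⟩ := (h2 _).1 (c1 0 (by omega))
      exact ⟨x, 0, 0, e, fun h => absurd h b⟩
  choose c s d e1 e2 using this
  have z : ∀ i ≤ 4 * nv φ + 2 * φ.length, i % 2 = 0 → (i = 0 ∨ 4 * nv φ ≤ i) → p (c i) = (0, i, 0) := by
    intro i a b b'
    have := e2 i (by omega)
    obtain ⟨f1, f2⟩ : s i = 0 ∧ d i = i := by omega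
    have := c1 i a
    rw [e1, f1, f2, show ch 0 i = 0 by simp only [Val] at this; omega]
  refine ⟨u, v, h3, h4, 8 * nv φ + 2 * φ.length + 2, c, by omega, fun i hi j hj e => ?_,
    fun i hi j hj => ?_, ⟨0, by omega, h1 ((z 0 (by omega) rfl (by omega)).trans h5.symm)⟩,
    ⟨4 * nv φ + 2 * φ.length, by omega, h1 ((z _ le_rfl (by omega) (by omega)).trans h6.symm)⟩⟩
  · have a := e2 i hi
    have b := e2 j hj
    have := (e1 i).symm.trans ((congrArg p e).trans (e1 j))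
    simp only [Prod.mk.injEq] at this
    omega
  · have a := e2 i hi
    have b := e2 j hj
    have m1 := md hi
    have m2 := md hj
    rw [h7, e1, e1, k _ _ _ _ (by omega) (by omega), k _ _ _ _ (by omega) (by omega)]
    clear k z c1 c2 c3 c4 c5 e1 e2
    omega

def adj (y : Inst) (a b : ℕ) : Bool := !(a == b) && (y.1.2.contains (a, b) || y.1.2.contains (b, a))

theorem adj_iff (y : Inst) (a b : Fin y.1.1) : (gr y.1.1 y.1.2).Adj a b ↔ adj y a b = true := by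
  simp [gr, adj, SimpleGraph.fromRel_adj, Fin.ext_iff]

theorem inNP : InNP Yes := by
  refine PT.inNP_nats (V := fun y o => decide (4 ≤ o.length) && ((List.range o.length).all fun i =>
    decide (o.getD i 0 < y.1.1)) && ((List.range o.length).all fun i => (List.range o.length).all fun j =>
    (i == j || !(o.getD i 0 == o.getD j 0)) && (adj y (o.getD i 0) (o.getD j 0) ==
      (j == (i + 1) % o.length || i == (j + 1) % o.length))) &&
    ((List.range o.length).any fun i => o.getD i 0 == y.2.1) &&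
    ((List.range o.length).any fun i => o.getD i 0 == y.2.2)) (by unfold adj; fun_prop)
    (fun y => y.1.1 + y.1.1 * y.1.1) (by fun_prop) (fun y o h => ?_)
    fun y ⟨u, v, e1, e2, k, c, h1, h2, h3, h4, h5⟩ => ?_
  · simp only [Bool.and_eq_true, List.all_eq_true, List.mem_range, Bool.or_eq_true, beq_iff_eq,
      Bool.not_eq_true', List.any_eq_true, decide_eq_true_eq, beq_eq_false_iff_ne] at h
    obtain ⟨⟨⟨⟨h1, h2⟩, h3⟩, a, ha, h4⟩, b, hb, h5⟩ := h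
    let c : ℕ → Fin y.1.1 := fun i => if h : i < o.length then ⟨_, h2 i h⟩ else ⟨_, h2 a ha⟩
    have hc : ∀ i < o.length, (c i).val = o.getD i 0 := fun i h => by simp only [c, dif_pos h]
    refine ⟨c a, c b, by rw [hc a ha, h4], by rw [hc b hb, h5], o.length, c, h1, fun i hi j hj e => ?_,
      fun i hi j hj => ?_, ⟨a, ha, rfl⟩, b, hb, rfl⟩
    · exact (h3 i hi j hj).1.resolve_right fun n => n (by rw [← hc i hi, ← hc j hj, e])
    · rw [adj_iff, hc i hi, hc j hj, (h3 i hi j hj).2]; simp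
  · have l : k ≤ y.1.1 := by
      simpa using Finset.card_le_card_of_injOn (s := Finset.range k) (t := Finset.univ) c (by simp)
        fun i hi j hj => h2 i (by simpa using hi) j (by simpa using hj)
    have g : ∀ i < k, ((List.range k).map fun i => (c i).val).getD i 0 = c i := fun i h => by simp [h]
    refine ⟨(List.range k).map fun i => (c i).val, ?_, ?_⟩
    · have := List.sum_le_card_nsmul ((List.range k).map fun i => (c i).val) y.1.1 (by simp)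
      have := Nat.mul_le_mul_right y.1.1 l
      simp only [List.length_map, List.length_range, smul_eq_mul] at *; omega
    simp only [Bool.and_eq_true, List.all_eq_true, List.mem_range, Bool.or_eq_true, beq_iff_eq,
      Bool.not_eq_true', List.any_eq_true, decide_eq_true_eq, beq_eq_false_iff_ne, List.length_map,
      List.length_range]
    obtain ⟨a, ha, rfl⟩ := h4
    obtain ⟨b, hb, rfl⟩ := h5
    refine ⟨⟨⟨⟨h1, fun i hi => by rw [g i hi]; exact (c i).2⟩, fun i hi j hj => ⟨or_iff_not_imp_left.2 fun n e => ?_, ?_⟩⟩,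
      a, ha, by rw [g a ha, e1]⟩, b, hb, by rw [g b hb, e2]⟩
    · rw [g i hi, g j hj] at e; exact n (h2 i hi j hj (Fin.ext e))
    · rw [g i hi, g j hj, Bool.eq_iff_iff, ← adj_iff, h3 i hi j hj]; simp

theorem result :
    (∀ L : List Bool → Prop, InNP L → ∃ f : List Bool → Inst, PolyTime id bits f ∧
      ∀ x, (Promise (f x) ∧ (gr (f x).1.1 (f x).1.2).Colorable 2) ∧ (L x ↔ Yes (f x))) ∧
    ((∃ V : Inst → Bool, PolyTime bits (fun b => [b]) V ∧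
      ∀ y, Promise y → (V y = true ↔ Yes y)) ↔ PeqNP) := by
  have h : HardFor InNP (fun y => Promise y ∧ (gr y.1.1 y.1.2).Colorable 2) Yes :=
    hard_SAT3.hardFor.red red red_pt fun φ _ => ⟨⟨⟨by simp [vs], by simp [vs], by simp,
      perfect (bip φ)⟩, bip φ⟩, complete φ, sound φ⟩
  exact ⟨h.unfold, promise_iff (h.red id PT.id fun y hy => ⟨hy.1, Iff.rfl⟩) inNP⟩

end Pool.Agent.Results.MP_08b96b_lc.NPHard
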